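import Pool.Agent.Lib.MP_2fe79c_gt.Geo.Main
import Pool.Agent.Lib.MP_2fe79c_gt.Geo.Regular

set_option autoImplicit false
open MeasureTheory

namespace Pool.Agent.Results.MP_2fe79c_gt.GeometricBodies

/-- In every dimension `n ≥ 3`, volume is a complete invariant for geometric bodies: two bounded
regular open sets with null frontiers and equal volume can be cut into finitely many pairwise
disjoint regular open pieces with null frontiers, which isometries carry to each other. -/
theorem result (n : ℕ) (hn : 3 ≤ n) (A B : Set (EuclideanSpace ℝ (Fin n)))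
    (hA : Bornology.IsBounded A ∧ interior (closure A) = A ∧ volume (frontier A) = 0)
    (hB : Bornology.IsBounded B ∧ interior (closure B) = B ∧ volume (frontier B) = 0)
    (hV : volume A = volume B) :
    ∃ k : ℕ, 1 ≤ k ∧ ∃ P : Fin k → Set (EuclideanSpace ℝ (Fin n)),
      ∃ g : Fin k → (EuclideanSpace ℝ (Fin n) ≃ᵢ EuclideanSpace ℝ (Fin n)),
        (∀ i, Bornology.IsBounded (P i) ∧ interior (closure (P i)) = P i ∧
          volume (frontier (P i)) = 0) ∧
        Pairwise (fun i j => Disjoint (P i) (P j)) ∧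
        interior (closure (⋃ i, P i)) = A ∧
        Pairwise (fun i j => Disjoint (g i '' P i) (g j '' P j)) ∧
        interior (closure (⋃ i, g i '' P i)) = B := by
  obtain ⟨k, P, g, h1, h2, h3, h4, h5⟩ := Pool.MP_2fe79c_gt.Geo.regular A B hA hB
    (Pool.MP_2fe79c_gt.Geo.teq_main hn A B hA.1 hB.1 hA.2.2 hB.2.2 hV)
  rcases Nat.eq_zero_or_pos k with hk | hk
  · subst hk
    have hA0 : A = ∅ := by rw [← h3]; simp
    have hB0 : B = ∅ := by rw [← h5]; simp
    refine ⟨1, le_rfl, fun _ => ∅, fun _ => IsometryEquiv.refl _, ?_, ?_, ?_, ?_, ?_⟩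
    · intro i; simp
    · intro i j _; simp
    · rw [hA0]; simp
    · intro i j _; simp
    · rw [hB0]; simp
  · exact ⟨k, hk, P, g, h1, h2, h3, h4, h5⟩

end Pool.Agent.Results.MP_2fe79c_gt.GeometricBodies
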