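import Pool.Agent.Lib.MP_2fe79c_gt.L1.Reg

set_option autoImplicit false
open MeasureTheory

namespace Pool.Agent.Results.MP_2fe79c_gt.LineCounterexample

/-- Dimension one: there is a regular open set `A` in `(0, 1/4)` with finite frontier outside each
neighbourhood of `0` which is not equidecomposable with the interval `(0, |A|)` by finitely many
isometries of the line: neither up to null sets, with arbitrary pieces, nor as geometric bodies. -/
theorem result :
    ∃ A : Set ℝ, A ⊆ Set.Ioo 0 (1 / 4) ∧ interior (closure A) = A ∧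
      (∀ ε > 0, (frontier A ∩ Set.Ici ε).Finite) ∧ volume (frontier A) = 0 ∧ 0 < volume A ∧
      volume (Set.Ioo 0 (volume A).toReal) = volume A ∧
      (∀ (k : ℕ) (P : Fin k → Set ℝ) (g : Fin k → (ℝ ≃ᵢ ℝ)),
        Pairwise (fun i j => Disjoint (P i) (P j)) →
        Pairwise (fun i j => Disjoint (g i '' P i) (g j '' P j)) →
        volume (symmDiff A (⋃ i, P i)) = 0 →
        volume (symmDiff (Set.Ioo 0 (volume A).toReal) (⋃ i, g i '' P i)) ≠ 0) ∧
      ¬ ∃ (k : ℕ) (P : Fin k → Set ℝ) (g : Fin k → (ℝ ≃ᵢ ℝ)),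
        (∀ i, Bornology.IsBounded (P i) ∧ interior (closure (P i)) = P i ∧
          volume (frontier (P i)) = 0) ∧
        Pairwise (fun i j => Disjoint (P i) (P j)) ∧
        interior (closure (⋃ i, P i)) = A ∧
        Pairwise (fun i j => Disjoint (g i '' P i) (g j '' P j)) ∧
        interior (closure (⋃ i, g i '' P i)) = Set.Ioo 0 (volume A).toReal := by
  refine ⟨_root_.MP_2fe79c_gt.L1.A1, _root_.MP_2fe79c_gt.L1.A1_sub,
    _root_.MP_2fe79c_gt.L1.A1_reg, fun ε hε => ?_, ?_, _root_.MP_2fe79c_gt.L1.A1_pos, ?_,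
    _root_.MP_2fe79c_gt.L1.general, _root_.MP_2fe79c_gt.L1.bodies⟩
  · exact (_root_.MP_2fe79c_gt.L1.A0_frontier_fin hε).subset
      (Set.inter_subset_inter_left _ _root_.MP_2fe79c_gt.L1.A1_frontier)
  · exact measure_mono_null _root_.MP_2fe79c_gt.L1.A1_frontier
      _root_.MP_2fe79c_gt.L1.null_frontier
  · rw [Real.volume_Ioo, sub_zero, ENNReal.ofReal_toReal _root_.MP_2fe79c_gt.L1.A1_ne_top]

end Pool.Agent.Results.MP_2fe79c_gt.LineCounterexample
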